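import Pool.Agent.Helper48.OD.St

/-! Project OD, module CT4. -/

set_option autoImplicit false

namespace Pool.Agent.Helper47.OD

open Pool.Agent.Helper43.GD Pool.Agent.Helper48.OD

private theorem k4_ev {L A : Type} [CommRing L] [Group A] (Q : Fr L A) {T : Lˣ} (h : K4 Q T)
    (he : Ev T) : Gd Q T := by
  have h1 := h.2 1 Q.U.one_mem Tw.one
  rw [one_mul] at h1
  exact h1 he

theorem hCT4 (hKSG : StKSG) (hGDK : StGDK) : StCT4 := by
  intro L A _ _ Q y h hy hu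
  obtain ⟨k1, km, kmul, kinv⟩ := hKSG L A Q h
  have : Finite L := h.fin
  have : Nontrivial L := h.nt
  rcases h.ui.ev_or_od hy.1 with he | ho
  · exact k4_ev Q hy he
  by_contra hng
  have hex : ∀ T : Lˣ, T ∈ {T : Lˣ | K4 Q T ∧ Ev T} →
      ∃ ρ : Lˣ, ρ ∈ {o : Lˣ | K4 Q o ∧ Od o} \ {1} ∧ (ρ : L) * (1 - (T : L) * y) = 1 - (T : L) := by
    rintro T ⟨hT, hTe⟩
    have gT := k4_ev Q hT hTe
    have gTy : Gd Q (T * y) := k4_ev Q (kmul T y hT hy) (hTe.mul_od ho)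
    obtain ⟨c, hc, ec⟩ := gT.2
    obtain ⟨d, hd, ed⟩ := gTy.2
    have gc := Gd.one_sub Q gT ec
    have gd := Gd.one_sub Q gTy ed
    have kρ : K4 Q (c * d⁻¹) := kmul c d⁻¹ (hGDK L A Q c h gc) (kinv d (hGDK L A Q d h gd))
    rw [Units.val_mul] at ed
    have hdd : ((d⁻¹ : Lˣ) : L) * (d : L) = 1 := d.inv_mul
    have e1 : 1 - ((c * d⁻¹ : Lˣ) : L) = (T : L) * ((1 - (y : L)) * ((d⁻¹ : Lˣ) : L)) := by
      rw [Units.val_mul]
      calc 1 - (c : L) * ((d⁻¹ : Lˣ) : L) = ((d⁻¹ : Lˣ) : L) * (d : L) -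
            (c : L) * ((d⁻¹ : Lˣ) : L) := by rw [hdd]
        _ = _ := by rw [ec, ed]; ring
    have hunit : IsUnit (1 - ((c * d⁻¹ : Lˣ) : L)) := by
      rw [e1]
      exact T.isUnit.mul (hu.mul d⁻¹.isUnit)
    have hρo : Od (c * d⁻¹) := by
      rcases h.ui.ev_or_od kρ.1 with hev | hod
      · exfalso
        apply hng
        have gρ := k4_ev Q kρ hev
        refine ⟨hy.1, ?_⟩
        have h1 := in_mul Q (in_mul Q (in_val Q (Q.U.inv_mem gT.1)) (in_val Q hd)) gρ.2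
        have h2 : ((T⁻¹ : Lˣ) : L) * (d : L) * (1 - ((c * d⁻¹ : Lˣ) : L)) = 1 - (y : L) := by
          rw [e1]
          have hTT : ((T⁻¹ : Lˣ) : L) * (T : L) = 1 := T.inv_mul
          calc ((T⁻¹ : Lˣ) : L) * (d : L) * ((T : L) * ((1 - (y : L)) * ((d⁻¹ : Lˣ) : L))) =
              (((T⁻¹ : Lˣ) : L) * (T : L)) * (((d⁻¹ : Lˣ) : L) * (d : L)) * (1 - (y : L)) := by
                ring
            _ = 1 - (y : L) := by rw [hTT, hdd]; ring
        rw [h2] at h1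
        exact h1
      · exact hod
    refine ⟨c * d⁻¹, ⟨⟨kρ, hρo⟩, ?_⟩, ?_⟩
    · rw [Set.mem_singleton_iff]
      intro h1
      rw [h1, Units.val_one, sub_self] at hunit
      exact not_isUnit_zero hunit
    · rw [Units.val_mul, ← ed, mul_assoc, hdd, mul_one, ec]
  choose! f hf using hex
  have hfin : ({o : Lˣ | K4 Q o ∧ Od o}).Finite := Set.toFinite _
  have h1 : ({T : Lˣ | K4 Q T ∧ Ev T}).ncard ≤ ({o : Lˣ | K4 Q o ∧ Od o} \ {1}).ncard := by
    refine Set.ncard_le_ncard_of_injOn f (fun T hT => (hf T hT).1) ?_ (Set.toFinite _)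
    intro T hT T' hT' hE
    have e1 := (hf T hT).2
    have e2 := (hf T' hT').2
    rw [← hE] at e2
    have e3 : ((T' : L) - (T : L)) * (1 - (y : L)) = 0 := by
      linear_combination (1 - (T : L) * y) * e2 - (1 - (T' : L) * y) * e1
    have e4 : (T' : L) - (T : L) = 0 := by
      obtain ⟨u, hu'⟩ := hu
      rw [← hu'] at e3
      exact (Units.mul_left_eq_zero u).1 e3
    exact Units.ext (sub_eq_zero.1 e4).symm
  have h2 : ({o : Lˣ | K4 Q o ∧ Od o} \ {1}).ncard < ({o : Lˣ | K4 Q o ∧ Od o}).ncard :=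
    Set.ncard_sdiff_singleton_lt_of_mem ⟨k1, Od.one⟩ hfin
  have h3 : ({o : Lˣ | K4 Q o ∧ Od o}).ncard ≤ ({T : Lˣ | K4 Q T ∧ Ev T}).ncard := by
    refine Set.ncard_le_ncard_of_injOn (fun o => -1 * o) ?_ ?_ (Set.toFinite _)
    · rintro o ⟨ko, oo⟩
      exact ⟨kmul (-1) o km ko, Ev.neg_one.mul_od oo⟩
    · intro o _ o' _ hE
      exact mul_left_cancel hE
  omega

end Pool.Agent.Helper47.OD
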